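import Pool.Agent.H338R3.SolidC
import Pool.Agent.H338R3.Transfer
import Pool.Agent.H338R3.HochE

/-!
For every prime `p` and every field `k` of characteristic `p` there is a noetherian domain `R`
containing `k` whose regular locus is not open, so that `R` is not J-2 and not excellent, and whose
absolute integral closure `R⁺` is a solid `R`-algebra: `R → R⁺` even splits.

`R` is the localization, at the elements outside all the ideals `n_i`, of the ring
`D = ⊗_i k[x_i, y_i]^{(p)}` (an infinite tensor product of `p`-th Veronese rings).
-/

set_option autoImplicit false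

namespace Pool.Agent.Results.MP_afeaf0_al.NonExcellentSolid

open Pool.Agent.H338R3 MvPolynomial

/-- The regular locus of `R`: the primes `P` for which `R_P` is a regular local ring. -/
def regularLocus (R : Type) [CommRing R] : Set (PrimeSpectrum R) :=
  {P | IsRegularLocalRing (Localization.AtPrime P.asIdeal)}

/-- `R` is J-2: the regular locus of every finitely generated `R`-algebra is open. -/
def IsJTwo (R : Type) [CommRing R] : Prop :=
  ∀ (S : Type) [CommRing S] [Algebra R S], Algebra.FiniteType R S → IsOpen (regularLocus S)

/-- The absolute integral closure `R⁺` of a domain `R`. -/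
noncomputable abbrev AbsClosure (R : Type) [CommRing R] [IsDomain R] : Subalgebra R (AlgebraicClosure (FractionRing R)) :=
  integralClosure R (AlgebraicClosure (FractionRing R))

/-- `R → R⁺` splits: there is an `R`-linear map `R⁺ → R` sending `1` to `1`. -/
def SplitsInAbsClosure (R : Type) [CommRing R] [IsDomain R] : Prop :=
  ∃ f : AbsClosure R →ₗ[R] R, f 1 = 1

section

variable {k : Type} [Field k]

lemma WW_le (p : ℕ) : WW p k ≤ nonZeroDivisors (DD p k) := by
  intro w hw
  rw [mem_nonZeroDivisors_iff_ne_zero]
  rintro rfl
  exact hw 0 (Ideal.zero_mem _)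

lemma disjoint_WW (p i : ℕ) : Disjoint (WW p k : Set (DD p k)) (nD p i : Ideal (DD p k)) := by
  rw [Set.disjoint_left]
  intro w hw hwi
  exact hw i hwi

variable (p : ℕ) (R : Type) [CommRing R] [IsDomain R] [Algebra (DD p k) R]
  [IsLocalization (WW p k) R]

/-- the prime ideal `n_i R` -/
noncomputable def nR (i : ℕ) : PrimeSpectrum R where
  asIdeal := (nD p i : Ideal (DD p k)).map (algebraMap (DD p k) R)
  isPrime := IsLocalization.isPrime_of_isPrime_disjoint (WW p k) R _ inferInstance (disjoint_WW p i)

omit [IsDomain R] in
lemma comap_nR (i : ℕ) : (nR (k := k) p R i).asIdeal.comap (algebraMap (DD p k) R) = nD p i :=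
  IsLocalization.under_map_of_isPrime_disjoint (WW p k) R inferInstance (disjoint_WW p i)

omit [IsDomain R] in
lemma nR_notMem [hp : Fact p.Prime] [CharP k p] (i : ℕ) : nR (k := k) p R i ∉ regularLocus R := by
  intro h
  have h1 : IsRegularLocalRing (Localization.AtPrime (nR (k := k) p R i).asIdeal) := h
  have h2 : IsLocalization.AtPrime (Localization.AtPrime (nR (k := k) p R i).asIdeal)
      ((nR (k := k) p R i).asIdeal.comap (algebraMap (DD p k) R)) :=
    IsLocalization.isLocalization_isLocalization_atPrime_isLocalization (WW p k) _ _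
  have h3 : IsLocalization.AtPrime (Localization.AtPrime (nR (k := k) p R i).asIdeal)
      (nD p i : Ideal (DD p k)) := by
    have e := comap_nR (k := k) p R i
    simp only [IsLocalization.AtPrime] at h2 ⊢
    simp only [e] at h2
    exact h2
  exact not_regular (k := k) p i _ h1

lemma bot_mem : (⟨⊥, Ideal.isPrime_bot⟩ : PrimeSpectrum R) ∈ regularLocus R := by
  change IsRegularLocalRing (Localization.AtPrime (⊥ : Ideal R))
  let : Field (Localization.AtPrime (⊥ : Ideal R)) := IsField.toField <| by
    simp [IsLocalRing.isField_iff_maximalIdeal_eq, ← Localization.AtPrime.map_eq_maximalIdeal]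
  infer_instance

include k in
lemma not_isOpen [hp : Fact p.Prime] [CharP k p] :
    ¬ IsOpen (regularLocus R) := by
  intro hopen
  obtain ⟨_, ⟨g, rfl⟩, hg1, hg2⟩ :=
    PrimeSpectrum.isTopologicalBasis_basic_opens.exists_subset_of_mem_open (bot_mem R) hopen
  have hg : g ≠ 0 := hg1
  obtain ⟨d, w, rfl⟩ := IsLocalization.exists_mk'_eq (WW p k) g
  have hd : (d : PolyA k) ≠ 0 := by
    intro h0
    apply hg
    have : d = 0 := Subtype.ext h0
    rw [this, IsLocalization.mk'_zero]
  obtain ⟨N, hN⟩ := exists_bound_ep (d : PolyA k)
  apply nR_notMem (k := k) p R N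
  apply hg2
  change IsLocalization.mk' R d w ∉ (nR (k := k) p R N).asIdeal
  intro hmem
  have h1 : algebraMap (DD p k) R d ∈ (nR (k := k) p R N).asIdeal := by
    rw [← IsLocalization.mk'_spec R d w]
    exact Ideal.mul_mem_right _ _ hmem
  rw [← Ideal.mem_comap, comap_nR, mem_nD, hN N le_rfl] at h1
  exact hd h1

end

/-- The splitting of `R → R⁺`. -/
lemma solid (p : ℕ) [hp : Fact p.Prime] (k : Type) [Field k] [CharP k p]
    (R : Type) [CommRing R] [IsDomain R] [Algebra (DD p k) R] [IsLocalization (WW p k) R] :
    SplitsInAbsClosure R := by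
  obtain ⟨g, hg⟩ := split_poly (ℕ × Bool) k p
  have h1 : ∀ (d : DD p k) x, ((prD p).comp g.toAddMonoidHom) (algebraMap (DD p k) (PolyA k) d • x) =
      d * ((prD p).comp g.toAddMonoidHom) x := by
    intro d x
    change prD p (g (algebraMap (DD p k) (PolyA k) d • x)) = d * prD p (g x)
    rw [map_smul, smul_eq_mul, prD_mul]
  have h2 : ((prD p).comp g.toAddMonoidHom) 1 = 1 := by
    change prD p (g 1) = 1
    rw [hg]
    exact prD_of p 1
  exact transfer (A := PolyA k) R Subtype.val_injective (WW p k) (WW_le p) _ h1 h2

/-- **Main theorem.** For every prime `p` and every field `k` of characteristic `p` there is a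
noetherian domain `R` of characteristic `p` containing `k` whose regular locus is not open (so `R`
is not J-2, hence not excellent) such that `R → R⁺` splits as a map of `R`-modules. -/
theorem result (p : ℕ) (hp : p.Prime) (k : Type) [Field k] [CharP k p] :
    ∃ (R : Type) (_ : CommRing R) (_ : IsDomain R) (_ : Algebra k R),
      CharP R p ∧ IsNoetherianRing R ∧ ¬ IsOpen (regularLocus R) ∧ ¬ IsJTwo R ∧
      SplitsInAbsClosure R := by
  have : Fact p.Prime := ⟨hp⟩
  have hdom : IsDomain (Localization (WW p k)) := IsLocalization.isDomain_localization (WW_le p)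
  have hopen : ¬ IsOpen (regularLocus (Localization (WW p k))) :=
    not_isOpen (k := k) p (Localization (WW p k))
  have hchar : CharP (Localization (WW p k)) p :=
    charP_of_injective_algebraMap (algebraMap k (Localization (WW p k))).injective p
  have hj : ¬ IsJTwo (Localization (WW p k)) := fun h =>
    hopen (h (Localization (WW p k)) inferInstance)
  exact ⟨Localization (WW p k), inferInstance, hdom, inferInstance, hchar,
    noeth (k := k) p (Localization (WW p k)), hopen, hj, solid p k (Localization (WW p k))⟩

end Pool.Agent.Results.MP_afeaf0_al.NonExcellentSolid
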