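import Pool.Agent.H215R3.SP.Solid

/-!
# A Noetherian domain of characteristic `p` with solid absolute integral closure, not excellent

For every prime `p` there is a Noetherian local domain `R` of characteristic `p` which is not
universally catenary (so not excellent) and whose absolute integral closure `R⁺` is a solid
`R`-algebra: `Hom_R(R⁺, R) ≠ 0`.
-/

set_option autoImplicit false

namespace Pool.Agent.Results.MP_afeaf0_al.SolidNotExcellent

open Pool.Agent.H215R3.SP

theorem result (p : ℕ) [Fact p.Prime] :
    ∃ (R : Type) (_ : CommRing R), IsDomain R ∧ IsNoetherianRing R ∧ IsLocalRing R ∧ CharP R p ∧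
      ¬ IsUniversallyCatenary R ∧ IsSolidPlus R :=
  ⟨AA p, inferInstance, inferInstance, inferInstance, inferInstance, inferInstance,
    not_universallyCatenary p, solid p⟩

end Pool.Agent.Results.MP_afeaf0_al.SolidNotExcellent
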